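import Mathlib

set_option autoImplicit false

open MeasureTheory

namespace Pool.Agent.H5R2.TF

/-- Physical space `ℝ³`. -/
abbrev Space : Type := EuclideanSpace ℝ (Fin 3)

/-- Wave functions of `N` spin-1/2 electrons: functions of the `N` spins and of the `N` positions. -/
abbrev Wave (N : ℕ) : Type := (Fin N → Fin 2) → (Fin N → Space) → ℂ

/-- The potential `V(x) = ∑ⱼ zⱼ / |x - Rⱼ|` of the nuclei. -/
noncomputable def nuclearPotential {k : ℕ} (z : Fin k → ℝ) (R : Fin k → Space) (x : Space) : ℝ :=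
  ∑ j, z j / ‖x - R j‖

/-- The repulsion `U = ∑_{i<j} zᵢ zⱼ / |Rᵢ - Rⱼ|` of the nuclei. -/
noncomputable def nuclearRepulsion {k : ℕ} (z : Fin k → ℝ) (R : Fin k → Space) : ℝ :=
  ∑ i, ∑ j, if i < j then z i * z j / ‖R i - R j‖ else 0

/-- The full potential energy of `N` electrons at `x`: attraction by the nuclei, repulsion of the
electrons and repulsion of the nuclei. -/
noncomputable def potentialEnergy {N k : ℕ} (z : Fin k → ℝ) (R : Fin k → Space)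
    (x : Fin N → Space) : ℝ :=
  -(∑ i, nuclearPotential z R (x i)) + (∑ i, ∑ j, if i < j then 1 / ‖x i - x j‖ else 0) +
    nuclearRepulsion z R

/-- Smooth, compactly supported, antisymmetric, normalised wave functions of `N` electrons. -/
structure IsState {N : ℕ} (ψ : Wave N) : Prop where
  smooth : ∀ σ, ContDiff ℝ ((⊤ : ℕ∞) : WithTop ℕ∞) (ψ σ)
  compact : ∀ σ, HasCompactSupport (ψ σ)
  antisymmetric : ∀ (τ : Equiv.Perm (Fin N)) (σ : Fin N → Fin 2) (x : Fin N → Space),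
    ψ (σ ∘ τ) (x ∘ τ) = ((Equiv.Perm.sign τ : ℤ) : ℂ) * ψ σ x
  normalized : ∑ σ, ∫ x, ‖ψ σ x‖ ^ 2 = 1

/-- The quadratic form `⟨ψ, H_N ψ⟩` of the Hamiltonian
`H_N = ∑ᵢ (-Δᵢ - V(xᵢ)) + ∑_{i<j} 1 / |xᵢ - xⱼ| + U`. -/
noncomputable def quantumForm {N k : ℕ} (z : Fin k → ℝ) (R : Fin k → Space) (ψ : Wave N) : ℝ :=
  ∑ σ, ∫ x, ((∑ i, ∑ c : Fin 3,
    ‖fderiv ℝ (ψ σ) x (Pi.single i (EuclideanSpace.single c (1 : ℝ)))‖ ^ 2) +
      potentialEnergy z R x * ‖ψ σ x‖ ^ 2)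

/-- The quantum ground state energy `E^Q(N, z, R) = inf spec H_N`: the infimum of the form over the
normalised states of the form core of smooth compactly supported antisymmetric functions. -/
noncomputable def quantumEnergy {k : ℕ} (N : ℕ) (z : Fin k → ℝ) (R : Fin k → Space) : EReal :=
  ⨅ ψ : {ψ : Wave N // IsState ψ}, ((quantumForm z R ψ.1 : ℝ) : EReal)

/-- The Thomas-Fermi constant `γ = (3/5) (3π²)^{2/3}`. -/
noncomputable def gammaTF : ℝ := 3 / 5 * (3 * Real.pi ^ 2) ^ (2 / 3 : ℝ)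

/-- The densities admitted in the Thomas-Fermi problem: `ρ ≥ 0`, `ρ ∈ L¹ ∩ L^{5/3}`, `∫ ρ ≤ N`. -/
structure IsDensity (N : ℕ) (ρ : Space → ℝ) : Prop where
  nonneg : ∀ x, 0 ≤ ρ x
  integrable : Integrable ρ
  integrable_rpow : Integrable (fun x => ρ x ^ (5 / 3 : ℝ))
  mass_le : ∫ x, ρ x ≤ N

/-- The Thomas-Fermi functional
`γ ∫ ρ^{5/3} - ∫ V ρ + (1/2) ∬ ρ(x) ρ(y) / |x - y| + U`. -/
noncomputable def thomasFermi {k : ℕ} (z : Fin k → ℝ) (R : Fin k → Space) (ρ : Space → ℝ) : ℝ :=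
  gammaTF * (∫ x, ρ x ^ (5 / 3 : ℝ)) - (∫ x, nuclearPotential z R x * ρ x) +
    1 / 2 * (∫ x, ∫ y, ρ x * ρ y / ‖x - y‖) + nuclearRepulsion z R

/-- The Thomas-Fermi energy `E^TF(N, z, R)`. -/
noncomputable def thomasFermiEnergy {k : ℕ} (N : ℕ) (z : Fin k → ℝ) (R : Fin k → Space) : EReal :=
  ⨅ ρ : {ρ : Space → ℝ // IsDensity N ρ}, ((thomasFermi z R ρ.1 : ℝ) : EReal)

end Pool.Agent.H5R2.TF
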