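import Pool.Agent.H5R2.TF_Defs

set_option autoImplicit false

open MeasureTheory Set

namespace Pool.Agent.H5R2.TF

theorem dim_space : Module.finrank ℝ Space = 3 := by
  simp [Space]

/-- the integral of the kernel `(e^{-Lr}/r)^{5/2}` -/
theorem kernel_integral : ∃ C : ℝ, 0 ≤ C ∧ ∀ (L : ℝ) (R : Space), 0 < L →
    Integrable (fun x : Space => (Real.exp (-(L * ‖x - R‖)) / ‖x - R‖) ^ (5 / 2 : ℝ)) ∧
    ∫ x : Space, (Real.exp (-(L * ‖x - R‖)) / ‖x - R‖) ^ (5 / 2 : ℝ) =
      C * L ^ (-(1 / 2) : ℝ) := by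
  refine ⟨3 * (volume.real (Metric.ball (0 : Space) 1) *
    ((2 / 5 : ℝ) ^ (1 / 2 : ℝ) * Real.Gamma (1 / 2))), by positivity, ?_⟩
  intro L R hL
  have key : ∀ y ∈ Ioi (0 : ℝ), y ^ (Module.finrank ℝ Space - 1) •
      (fun y : ℝ => (Real.exp (-(L * y)) / y) ^ (5 / 2 : ℝ)) y =
      y ^ ((1 / 2 : ℝ) - 1) * Real.exp (-(5 / 2 * L * y)) := by
    intro y hy
    have hy0 : (0 : ℝ) < y := hy
    rw [dim_space]
    simp only [smul_eq_mul]
    rw [Real.div_rpow (Real.exp_pos _).le hy0.le, ← Real.exp_mul]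
    have h1 : y ^ (3 - 1) = y ^ (2 : ℝ) := by
      rw [show (2 : ℝ) = ((2 : ℕ) : ℝ) by norm_num, Real.rpow_natCast]
    rw [h1, show -(L * y) * (5 / 2) = -(5 / 2 * L * y) by ring,
      show ((1 / 2 : ℝ) - 1) = 2 - 5 / 2 by norm_num, Real.rpow_sub hy0]
    ring
  have hint : Integrable (fun x : Space =>
      (fun y : ℝ => (Real.exp (-(L * y)) / y) ^ (5 / 2 : ℝ)) ‖x‖) := by
    rw [integrable_fun_norm_addHaar (μ := (volume : Measure Space))
      (f := fun y : ℝ => (Real.exp (-(L * y)) / y) ^ (5 / 2 : ℝ))]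
    rw [integrableOn_congr_fun key measurableSet_Ioi]
    have h := integrableOn_rpow_mul_exp_neg_mul_rpow (p := 1) (s := (1 / 2 : ℝ) - 1)
      (b := 5 / 2 * L) (by norm_num) (by norm_num) (by positivity)
    refine h.congr_fun ?_ measurableSet_Ioi
    intro y hy
    simp only [Real.rpow_one]
    congr 2
    ring
  constructor
  · exact hint.comp_sub_right R
  · rw [integral_sub_right_eq_self
      (fun x : Space => (Real.exp (-(L * ‖x‖)) / ‖x‖) ^ (5 / 2 : ℝ)) R]
    rw [integral_fun_norm_addHaar (μ := (volume : Measure Space))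
      (f := fun y : ℝ => (Real.exp (-(L * y)) / y) ^ (5 / 2 : ℝ))]
    rw [setIntegral_congr_fun measurableSet_Ioi key]
    rw [Real.integral_rpow_mul_exp_neg_mul_Ioi (by norm_num) (by positivity)]
    rw [dim_space]
    simp only [nsmul_eq_mul, smul_eq_mul]
    have h2 : (1 / (5 / 2 * L)) ^ (1 / 2 : ℝ) = (2 / 5 : ℝ) ^ (1 / 2 : ℝ) * L ^ (-(1 / 2) : ℝ) := by
      rw [Real.rpow_neg hL.le, show 1 / (5 / 2 * L) = (2 / 5) / L by field_simp,
        Real.div_rpow (by norm_num) hL.le]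
      rfl
    rw [h2]
    push_cast
    ring

/-- Young's inequality used pointwise -/
theorem young_point {t u : ℝ} (ht : 0 ≤ t) (hu : 0 ≤ u) (hu1 : u < 1) :
    t / u ≤ t ^ (5 / 3 : ℝ) + Real.exp 1 ^ (5 / 2 : ℝ) * (Real.exp (-(1 * u)) / u) ^ (5 / 2 : ℝ) := by
  rcases hu.eq_or_lt with h0 | h0
  · rw [← h0]
    simp only [div_zero]
    rw [Real.zero_rpow (by norm_num)]
    simp only [mul_zero, add_zero]
    positivity
  have h1 : t / u ≤ t * (Real.exp 1 * (Real.exp (-(1 * u)) / u)) := by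
    have : 1 ≤ Real.exp 1 * Real.exp (-(1 * u)) := by
      rw [← Real.exp_add]
      apply Real.one_le_exp
      linarith
    calc t / u = t * (1 / u) := by ring
      _ ≤ t * ((Real.exp 1 * Real.exp (-(1 * u))) / u) := by gcongr
      _ = _ := by ring
  have h2 := Real.young_inequality_of_nonneg (p := 5 / 3) (q := 5 / 2) ht
    (show 0 ≤ Real.exp 1 * (Real.exp (-(1 * u)) / u) by positivity)
    (by constructor <;> norm_num)
  have h3 : (Real.exp 1 * (Real.exp (-(1 * u)) / u)) ^ (5 / 2 : ℝ) =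
      Real.exp 1 ^ (5 / 2 : ℝ) * (Real.exp (-(1 * u)) / u) ^ (5 / 2 : ℝ) :=
    Real.mul_rpow (Real.exp_pos _).le (by positivity)
  rw [h3] at h2
  have h4 : 0 ≤ t ^ (5 / 3 : ℝ) := by positivity
  have h5 : 0 ≤ Real.exp 1 ^ (5 / 2 : ℝ) * (Real.exp (-(1 * u)) / u) ^ (5 / 2 : ℝ) := by positivity
  have h6 : t ^ (5 / 3 : ℝ) / (5 / 3) ≤ t ^ (5 / 3 : ℝ) := by
    rw [div_le_iff₀ (by norm_num)]
    nlinarith
  have h7 : (Real.exp 1 ^ (5 / 2 : ℝ) * (Real.exp (-(1 * u)) / u) ^ (5 / 2 : ℝ)) / (5 / 2) ≤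
      Real.exp 1 ^ (5 / 2 : ℝ) * (Real.exp (-(1 * u)) / u) ^ (5 / 2 : ℝ) := by
    rw [div_le_iff₀ (by norm_num)]
    nlinarith
  linarith

/-- the comparison kernel -/
noncomputable def ker (w : Space) : ℝ :=
  Real.exp 1 ^ (5 / 2 : ℝ) * (Real.exp (-(1 * ‖w‖)) / ‖w‖) ^ (5 / 2 : ℝ)

theorem ker_nonneg (w : Space) : 0 ≤ ker w := by
  unfold ker
  positivity

theorem ker_integrable : Integrable ker := by
  obtain ⟨C, -, h⟩ := kernel_integral
  have := (h 1 0 one_pos).1
  simp only [sub_zero] at this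
  exact this.const_mul _

theorem div_norm_le {t : ℝ} (ht : 0 ≤ t) (w : Space) :
    t / ‖w‖ ≤ t ^ (5 / 3 : ℝ) + t + ker w := by
  have h0 : 0 ≤ t ^ (5 / 3 : ℝ) := by positivity
  have h1 := ker_nonneg w
  rcases lt_or_ge ‖w‖ 1 with h | h
  · have := young_point ht (norm_nonneg w) h
    unfold ker
    linarith
  · have : t / ‖w‖ ≤ t := div_le_self ht h
    linarith

theorem pot_integrable {ρ : Space → ℝ} (h0 : ∀ x, 0 ≤ ρ x) (h1 : Integrable ρ)
    (h2 : Integrable (fun x => ρ x ^ (5 / 3 : ℝ))) (R : Space) :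
    Integrable (fun x => ρ x / ‖x - R‖) := by
  have hk : Integrable (fun x => ker (x - R)) := ker_integrable.comp_sub_right R
  refine ((h2.add h1).add hk).mono' ?_ ?_
  · exact (h1.aestronglyMeasurable.aemeasurable.div
      (by fun_prop : Continuous fun x : Space => ‖x - R‖).measurable.aemeasurable).aestronglyMeasurable
  · refine Filter.Eventually.of_forall fun x => ?_
    have hx : 0 ≤ ρ x / ‖x - R‖ := div_nonneg (h0 x) (norm_nonneg _)
    rw [Real.norm_of_nonneg hx]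
    exact div_norm_le (h0 x) (x - R)

theorem coulomb_integrable {ρ : Space → ℝ} (h0 : ∀ x, 0 ≤ ρ x) (h1 : Integrable ρ)
    (h2 : Integrable (fun x => ρ x ^ (5 / 3 : ℝ))) :
    Integrable (fun p : Space × Space => ρ p.1 * ρ p.2 / ‖p.1 - p.2‖)
      ((volume : Measure Space).prod volume) := by
  have b1 : Integrable (fun p : Space × Space => ρ p.1 ^ (5 / 3 : ℝ) * ρ p.2)
      ((volume : Measure Space).prod volume) := h2.mul_prod h1
  have b2 : Integrable (fun p : Space × Space => ρ p.1 * ρ p.2)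
      ((volume : Measure Space).prod volume) := h1.mul_prod h1
  have b3 : Integrable (fun p : Space × Space => ρ p.2 * ker (p.1 - p.2))
      ((volume : Measure Space).prod volume) :=
    h1.convolution_integrand (ContinuousLinearMap.mul ℝ ℝ) ker_integrable
  refine ((b1.add b2).add b3).mono' ?_ ?_
  · exact (b2.aestronglyMeasurable.aemeasurable.div
      (by fun_prop : Continuous fun p : Space × Space =>
        ‖p.1 - p.2‖).measurable.aemeasurable).aestronglyMeasurable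
  · refine Filter.Eventually.of_forall fun p => ?_
    have hx : 0 ≤ ρ p.1 * ρ p.2 / ‖p.1 - p.2‖ :=
      div_nonneg (mul_nonneg (h0 _) (h0 _)) (norm_nonneg _)
    rw [Real.norm_of_nonneg hx]
    have := mul_le_mul_of_nonneg_left (div_norm_le (h0 p.1) (p.1 - p.2)) (h0 p.2)
    calc ρ p.1 * ρ p.2 / ‖p.1 - p.2‖ = ρ p.2 * (ρ p.1 / ‖p.1 - p.2‖) := by ring
      _ ≤ ρ p.2 * (ρ p.1 ^ (5 / 3 : ℝ) + ρ p.1 + ker (p.1 - p.2)) := this
      _ = _ := by simp only [Pi.add_apply]; ring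

/-- the exponential integral -/
theorem exp_integral {L t : ℝ} (hL : 0 ≤ L) (ht : 0 < t) :
    ∫ l in Ioc 0 L, Real.exp (-(l * t)) = (1 - Real.exp (-(L * t))) / t := by
  rw [← intervalIntegral.integral_of_le hL]
  have h : ∀ l ∈ Set.uIcc 0 L, HasDerivAt (fun l => -Real.exp (-(l * t)) / t)
      (Real.exp (-(l * t))) l := by
    intro l _
    have h1 : HasDerivAt (fun l : ℝ => -(l * t)) (-(1 * t)) l :=
      ((hasDerivAt_id l).mul_const t).neg
    have h2 : HasDerivAt (fun l => -Real.exp (-(l * t)) / t)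
      (-(Real.exp (-(l * t)) * -(1 * t)) / t) l := (h1.exp.neg).div_const t
    convert h2 using 1
    field_simp
  rw [intervalIntegral.integral_eq_sub_of_hasDerivAt h]
  · simp
    field_simp
    ring
  · exact (by fun_prop : Continuous fun l : ℝ => Real.exp (-(l * t))).intervalIntegrable _ _

end Pool.Agent.H5R2.TF
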