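import Pool.Agent.H5R2.TF_Lower

set_option autoImplicit false

open MeasureTheory Set

namespace Pool.Agent.H5R2.TF

section

variable {ρ : Space → ℝ} (h0 : ∀ x, 0 ≤ ρ x) (h1 : Integrable ρ)
  (h2 : Integrable (fun x => ρ x ^ (5 / 3 : ℝ))) (R : Space) (L : ℝ) (hL : 0 < L)

include h1 in
/-- integrability for Fubini -/
theorem fub_int (h : ℝ → ℝ) (M : ℝ) (hm : AEStronglyMeasurable h (volume.restrict (Ioc 0 L)))
    (hM : ∀ l, |h l| ≤ M) :
    Integrable (Function.uncurry fun (x : Space) (l : ℝ) =>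
      ρ x * (Real.exp (-(l * ‖x - R‖)) * h l)) (volume.prod (volume.restrict (Ioc 0 L))) := by
  have b : Integrable (fun p : Space × ℝ => ρ p.1 * (fun _ : ℝ => M) p.2)
      (volume.prod (volume.restrict (Ioc 0 L))) := h1.mul_prod (integrable_const M)
  refine b.mono ?_ ?_
  · have m1 : AEStronglyMeasurable (fun p : Space × ℝ => ρ p.1)
        (volume.prod (volume.restrict (Ioc 0 L))) := h1.aestronglyMeasurable.comp_fst
    have m2 : AEStronglyMeasurable (fun p : Space × ℝ => h p.2)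
        (volume.prod (volume.restrict (Ioc 0 L))) := hm.comp_snd
    have m3 : AEStronglyMeasurable (fun p : Space × ℝ => Real.exp (-(p.2 * ‖p.1 - R‖)))
        (volume.prod (volume.restrict (Ioc 0 L))) :=
      (by fun_prop : Continuous fun p : Space × ℝ =>
        Real.exp (-(p.2 * ‖p.1 - R‖))).aestronglyMeasurable
    exact m1.mul (m3.mul m2)
  · have hae : ∀ᵐ p : Space × ℝ ∂(volume.prod (volume.restrict (Ioc 0 L))), p.2 ∈ Ioc 0 L := by
      have := ae_restrict_mem (μ := (volume : Measure ℝ)) (measurableSet_Ioc (a := (0 : ℝ)) (b := L))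
      exact Measure.quasiMeasurePreserving_snd.ae this
    filter_upwards [hae] with p hp
    simp only [Function.uncurry]
    rw [norm_mul, norm_mul, norm_mul]
    have e1 : ‖Real.exp (-(p.2 * ‖p.1 - R‖))‖ ≤ 1 := by
      rw [Real.norm_of_nonneg (Real.exp_pos _).le, Real.exp_le_one_iff]
      have := mul_nonneg hp.1.le (norm_nonneg (p.1 - R))
      linarith
    have e2 : ‖h p.2‖ ≤ ‖M‖ := by
      rw [Real.norm_eq_abs, Real.norm_eq_abs]
      exact (hM _).trans (le_abs_self _)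
    have := mul_le_mul e1 e2 (norm_nonneg _) zero_le_one
    rw [one_mul] at this
    exact mul_le_mul_of_nonneg_left this (norm_nonneg _)

include h1 in
/-- swap of the integrations -/
theorem swap (h : ℝ → ℝ) (M : ℝ) (hm : AEStronglyMeasurable h (volume.restrict (Ioc 0 L)))
    (hM : ∀ l, |h l| ≤ M) :
    ∫ x, ρ x * ∫ l in Ioc 0 L, Real.exp (-(l * ‖x - R‖)) * h l =
      ∫ l in Ioc 0 L, (∫ x, ρ x * Real.exp (-(l * ‖x - R‖))) * h l := by
  have hf := fub_int h1 R L h M hm hM
  have := integral_integral_swap hf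
  calc ∫ x, ρ x * ∫ l in Ioc 0 L, Real.exp (-(l * ‖x - R‖)) * h l
      = ∫ x, ∫ l in Ioc 0 L, ρ x * (Real.exp (-(l * ‖x - R‖)) * h l) := by
        congr 1
        funext x
        rw [integral_const_mul]
    _ = ∫ l in Ioc 0 L, ∫ x, ρ x * (Real.exp (-(l * ‖x - R‖)) * h l) := this
    _ = _ := by
        congr 1
        funext l
        rw [← integral_mul_const]
        congr 1
        funext x
        ring

/-- the transform of `ρ` -/
noncomputable def gg (ρ : Space → ℝ) (R : Space) (l : ℝ) : ℝ :=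
  ∫ x, ρ x * Real.exp (-(l * ‖x - R‖))

include h0 h1 in
theorem gg_meas : AEStronglyMeasurable (gg ρ R) (volume.restrict (Ioc 0 L)) := by
  have hf := fub_int h1 R L (fun _ => 1) 1 aestronglyMeasurable_const (by simp)
  have := hf.integral_prod_right.aestronglyMeasurable
  refine this.congr (Filter.Eventually.of_forall fun l => ?_)
  simp [gg, Function.uncurry]

include h0 in
theorem gg_nonneg (l : ℝ) : 0 ≤ gg ρ R l :=
  integral_nonneg fun x => mul_nonneg (h0 x) (Real.exp_pos _).le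

include h0 h1 in
theorem gg_le {l : ℝ} (hl : 0 ≤ l) : gg ρ R l ≤ ∫ x, ρ x := by
  unfold gg
  refine integral_mono_of_nonneg (Filter.Eventually.of_forall fun x =>
    mul_nonneg (h0 x) (Real.exp_pos _).le) h1 (Filter.Eventually.of_forall fun x => ?_)
  have : Real.exp (-(l * ‖x - R‖)) ≤ 1 := by
    rw [Real.exp_le_one_iff]
    have := mul_nonneg hl (norm_nonneg (x - R))
    linarith
  exact mul_le_of_le_one_right (h0 x) this

/-- the kernel `(1 - e^{-Lr})/r` as an integral -/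
theorem exp_kernel_le {t : ℝ} (hL : 0 ≤ L) (ht : 0 < t) :
    ∫ l in Ioc 0 L, Real.exp (-(l * t)) ≤ 1 / t := by
  rw [exp_integral hL ht]
  apply div_le_div_of_nonneg_right _ ht.le
  have := Real.exp_pos (-(L * t))
  linarith

include h0 h1 h2 hL in
/-- the elementary positive definite lower bound of the Coulomb energy -/
theorem coulomb_ge : ∫ l in Ioc 0 L, gg ρ R l ^ 2 ≤ ∫ x, ∫ y, ρ x * ρ y / ‖x - y‖ := by
  obtain ⟨g', hg', hgg'⟩ : ∃ g' : ℝ → ℝ, (∀ l, |g' l| ≤ ∫ x, ρ x) ∧
      ∀ l ∈ Ioc 0 L, g' l = gg ρ R l := by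
    refine ⟨fun l => if 0 ≤ l then gg ρ R l else 0, fun l => ?_, fun l hl => if_pos hl.1.le⟩
    simp only
    split_ifs with h
    · rw [abs_of_nonneg (gg_nonneg h0 R l)]
      exact gg_le h0 h1 R h
    · simp only [abs_zero]
      exact integral_nonneg h0
  have hgm : AEStronglyMeasurable g' (volume.restrict (Ioc 0 L)) := by
    refine (gg_meas h0 h1 R L).congr ?_
    filter_upwards [ae_restrict_mem measurableSet_Ioc] with l hl
    exact (hgg' l hl).symm
  -- the inner swap, for fixed `x`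
  have inner : ∀ x : Space, ∫ y, ρ y * ∫ l in Ioc 0 L,
      Real.exp (-(l * ‖y - R‖)) * Real.exp (-(l * ‖x - R‖)) =
      ∫ l in Ioc 0 L, gg ρ R l * Real.exp (-(l * ‖x - R‖)) := by
    intro x
    have hM : ∀ l : ℝ, |(fun l : ℝ => Real.exp (-((max l 0) * ‖x - R‖))) l| ≤ 1 := by
      intro l
      simp only
      rw [abs_of_pos (Real.exp_pos _), Real.exp_le_one_iff]
      have := mul_nonneg (le_max_right l 0) (norm_nonneg (x - R))
      linarith
    have := swap h1 R L (fun l => Real.exp (-((max l 0) * ‖x - R‖))) 1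
      (by fun_prop : Continuous fun l : ℝ =>
        Real.exp (-((max l 0) * ‖x - R‖))).aestronglyMeasurable hM
    have e1 : ∀ y : Space, ∫ l in Ioc 0 L,
        Real.exp (-(l * ‖y - R‖)) * Real.exp (-(l * ‖x - R‖)) =
        ∫ l in Ioc 0 L, Real.exp (-(l * ‖y - R‖)) * Real.exp (-((max l 0) * ‖x - R‖)) := by
      intro y
      refine setIntegral_congr_fun measurableSet_Ioc fun l hl => ?_
      simp only [max_eq_left hl.1.le]
    simp_rw [e1]
    rw [this]
    refine setIntegral_congr_fun measurableSet_Ioc fun l hl => ?_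
    simp only [max_eq_left hl.1.le]
    rfl
  -- the outer swap
  have outer : ∫ x, ρ x * ∫ l in Ioc 0 L, Real.exp (-(l * ‖x - R‖)) * g' l =
      ∫ l in Ioc 0 L, gg ρ R l * g' l := swap h1 R L g' _ hgm hg'
  have e2 : ∫ l in Ioc 0 L, gg ρ R l ^ 2 = ∫ l in Ioc 0 L, gg ρ R l * g' l := by
    refine setIntegral_congr_fun measurableSet_Ioc fun l hl => ?_
    simp only [hgg' l hl]
    ring
  rw [e2, ← outer]
  have e3 : ∀ x : Space, ∫ l in Ioc 0 L, Real.exp (-(l * ‖x - R‖)) * g' l =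
      ∫ y, ρ y * ∫ l in Ioc 0 L, Real.exp (-(l * ‖y - R‖)) * Real.exp (-(l * ‖x - R‖)) := by
    intro x
    rw [inner x]
    refine setIntegral_congr_fun measurableSet_Ioc fun l hl => ?_
    simp only [hgg' l hl]
    ring
  have hci := coulomb_integrable h0 h1 h2
  refine integral_mono_of_nonneg ?_ hci.integral_prod_left ?_
  · refine Filter.Eventually.of_forall fun x => mul_nonneg (h0 x) ?_
    rw [e3 x]
    exact integral_nonneg fun y => mul_nonneg (h0 y) (integral_nonneg fun l => by positivity)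
  · filter_upwards [hci.prod_right_ae] with x hx
    rw [e3 x, ← integral_const_mul]
    refine integral_mono_of_nonneg ?_ hx ?_
    · refine Filter.Eventually.of_forall fun y => mul_nonneg (h0 x) ?_
      exact mul_nonneg (h0 y) (integral_nonneg fun l => by positivity)
    · have hne : ∀ᵐ y : Space, y ≠ x := by
        have : (volume : Measure Space) {x} = 0 := measure_singleton x
        exact (measure_eq_zero_iff_ae_notMem.mp this)
      filter_upwards [hne] with y hy
      have ht : 0 < ‖x - y‖ := norm_pos_iff.mpr (sub_ne_zero.mpr (Ne.symm hy))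
      have hs : ‖x - y‖ ≤ ‖y - R‖ + ‖x - R‖ := by
        have : x - y = (x - R) - (y - R) := by abel
        rw [this]
        exact (norm_sub_le _ _).trans (by linarith)
      have h3 : ∫ l in Ioc 0 L, Real.exp (-(l * ‖y - R‖)) * Real.exp (-(l * ‖x - R‖)) =
          ∫ l in Ioc 0 L, Real.exp (-(l * (‖y - R‖ + ‖x - R‖))) := by
        refine setIntegral_congr_fun measurableSet_Ioc fun l _ => ?_
        change Real.exp (-(l * ‖y - R‖)) * Real.exp (-(l * ‖x - R‖)) =
          Real.exp (-(l * (‖y - R‖ + ‖x - R‖)))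
        rw [← Real.exp_add]
        congr 1
        ring
      have h4 := exp_kernel_le L hL.le (lt_of_lt_of_le ht hs)
      have h5 : 1 / (‖y - R‖ + ‖x - R‖) ≤ 1 / ‖x - y‖ := one_div_le_one_div_of_le ht hs
      rw [h3]
      calc ρ x * (ρ y * ∫ l in Ioc 0 L, Real.exp (-(l * (‖y - R‖ + ‖x - R‖))))
          ≤ ρ x * (ρ y * (1 / ‖x - y‖)) :=
            mul_le_mul_of_nonneg_left (mul_le_mul_of_nonneg_left (h4.trans h5) (h0 y)) (h0 x)
        _ = ρ x * ρ y / ‖x - y‖ := by ring

include h0 h1 h2 hL in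
/-- linearised lower bound: `D(ρ,ρ) ≥ z ∫ ρ (1 - e^{-Lr})/r - z² L / 2` -/
theorem coulomb_ge_linear (z : ℝ) :
    2 * z * (∫ x, ρ x * ∫ l in Ioc 0 L, Real.exp (-(l * ‖x - R‖))) - z ^ 2 * L ≤
      ∫ x, ∫ y, ρ x * ρ y / ‖x - y‖ := by
  refine le_trans ?_ (coulomb_ge h0 h1 h2 R L hL)
  have hsw := swap h1 R L (fun _ => 1) 1 aestronglyMeasurable_const (by simp)
  simp only [mul_one] at hsw
  rw [hsw]
  have hgi : Integrable (gg ρ R) (volume.restrict (Ioc 0 L)) := by
    have hf := fub_int h1 R L (fun _ => 1) 1 aestronglyMeasurable_const (by simp)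
    have := hf.integral_prod_right
    refine this.congr (Filter.Eventually.of_forall fun l => ?_)
    simp [gg, Function.uncurry]
  have hgi2 : Integrable (fun l => gg ρ R l ^ 2) (volume.restrict (Ioc 0 L)) := by
    have hc : Integrable (fun _ : ℝ => (∫ x, ρ x) ^ 2) (volume.restrict (Ioc 0 L)) :=
      integrable_const _
    refine hc.mono' ((gg_meas h0 h1 R L).pow 2) ?_
    filter_upwards [ae_restrict_mem measurableSet_Ioc] with l hl
    rw [Real.norm_of_nonneg (by positivity)]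
    exact pow_le_pow_left₀ (gg_nonneg h0 R l) (gg_le h0 h1 R hl.1.le) 2
  have hc : ∫ _l in Ioc 0 L, z ^ 2 = z ^ 2 * L := by
    rw [setIntegral_const]
    simp [hL.le, mul_comm]
  have hfold : ∫ l in Ioc 0 L, (∫ x, ρ x * Real.exp (-(l * ‖x - R‖))) =
      ∫ l in Ioc 0 L, gg ρ R l := rfl
  rw [hfold, ← hc, ← integral_const_mul, ← integral_sub (hgi.const_mul _) (integrable_const _)]
  refine integral_mono ((hgi.const_mul _).sub (integrable_const _)) hgi2 fun l => ?_
  simp only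
  nlinarith [sq_nonneg (gg ρ R l - z)]

end

/-- lower bound of the Thomas-Fermi functional of a one-nucleus system -/
theorem tf_lower : ∃ C : ℝ, 0 < C ∧ ∀ (N : ℕ) (z : ℝ) (R : Space) (ρ : Space → ℝ), 0 < z →
    IsDensity N ρ →
    -C * z ^ (7 / 3 : ℝ) ≤ thomasFermi (fun _ : Fin 1 => z) (fun _ : Fin 1 => R) ρ := by
  obtain ⟨C₂, hC2, hker⟩ := kernel_integral
  have hγ : 0 < gammaTF := by unfold gammaTF; positivity
  obtain ⟨c0, hc0⟩ : ∃ c0 : ℝ, c0 = (5 / 3 * gammaTF) ^ (3 / 5 : ℝ) := ⟨_, rfl⟩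
  have hc0pos : 0 < c0 := by rw [hc0]; positivity
  have hc0pow : c0 ^ (5 / 3 : ℝ) = 5 / 3 * gammaTF := by
    rw [hc0, ← Real.rpow_mul (by positivity)]
    norm_num
  refine ⟨2 / 5 * (1 / c0) ^ (5 / 2 : ℝ) * C₂ + 1 / 2, by positivity, ?_⟩
  intro N z R ρ hz hρ
  obtain ⟨h0, h1, h2, -⟩ := hρ
  obtain ⟨L, hLdef⟩ : ∃ L : ℝ, L = z ^ (1 / 3 : ℝ) := ⟨_, rfl⟩
  have hL : 0 < L := by rw [hLdef]; positivity
  obtain ⟨hki, hkv⟩ := hker L R hL
  have hD := coulomb_ge_linear h0 h1 h2 R L hL z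
  have hpi := pot_integrable h0 h1 h2 R
  -- the functional
  have e1 : thomasFermi (fun _ : Fin 1 => z) (fun _ : Fin 1 => R) ρ =
      gammaTF * (∫ x, ρ x ^ (5 / 3 : ℝ)) - z * (∫ x, ρ x / ‖x - R‖) +
        1 / 2 * (∫ x, ∫ y, ρ x * ρ y / ‖x - y‖) := by
    unfold thomasFermi nuclearPotential nuclearRepulsion
    simp only [Finset.univ_unique, Finset.sum_singleton, lt_self_iff_false, if_false, add_zero]
    congr 2
    rw [← integral_const_mul]
    congr 1
    funext x
    ring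
  have hGi : Integrable (fun x => ρ x * ∫ l in Ioc 0 L, Real.exp (-(l * ‖x - R‖))) := by
    have hf := fub_int h1 R L (fun _ => 1) 1 aestronglyMeasurable_const (by simp)
    have := hf.integral_prod_left
    refine this.congr (Filter.Eventually.of_forall fun x => ?_)
    simp only [Function.uncurry, mul_one]
    rw [integral_const_mul]
  have hne : ∀ᵐ x : Space, x ≠ R := by
    have : (volume : Measure Space) {R} = 0 := measure_singleton R
    exact (measure_eq_zero_iff_ae_notMem.mp this)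
  have e2 : (∫ x, ρ x / ‖x - R‖) - (∫ x, ρ x * ∫ l in Ioc 0 L, Real.exp (-(l * ‖x - R‖))) =
      ∫ x, ρ x * (Real.exp (-(L * ‖x - R‖)) / ‖x - R‖) := by
    rw [← integral_sub hpi hGi]
    refine integral_congr_ae ?_
    filter_upwards [hne] with x hx
    have ht : 0 < ‖x - R‖ := norm_pos_iff.mpr (sub_ne_zero.mpr hx)
    rw [exp_integral hL.le ht]
    field_simp
    ring
  have hKi : Integrable (fun x => ρ x * (Real.exp (-(L * ‖x - R‖)) / ‖x - R‖)) := by
    refine (hpi.sub hGi).congr ?_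
    filter_upwards [hne] with x hx
    have ht : 0 < ‖x - R‖ := norm_pos_iff.mpr (sub_ne_zero.mpr hx)
    simp only [Pi.sub_apply]
    rw [exp_integral hL.le ht]
    field_simp
    ring
  -- Young
  have e3 : z * (∫ x, ρ x * (Real.exp (-(L * ‖x - R‖)) / ‖x - R‖)) ≤
      gammaTF * (∫ x, ρ x ^ (5 / 3 : ℝ)) +
        2 / 5 * (z / c0) ^ (5 / 2 : ℝ) * (C₂ * L ^ (-(1 / 2) : ℝ)) := by
    rw [← hkv, ← integral_const_mul, ← integral_const_mul, ← integral_const_mul,
      ← integral_add (h2.const_mul _) (hki.const_mul _)]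
    refine integral_mono (hKi.const_mul _) ((h2.const_mul _).add (hki.const_mul _)) fun x => ?_
    simp only
    obtain ⟨κ, hκ⟩ : ∃ κ, κ = Real.exp (-(L * ‖x - R‖)) / ‖x - R‖ := ⟨_, rfl⟩
    have hκ0 : 0 ≤ κ := by rw [hκ]; positivity
    rw [← hκ]
    have hy := Real.young_inequality_of_nonneg (p := 5 / 3) (q := 5 / 2)
      (show 0 ≤ c0 * ρ x from mul_nonneg hc0pos.le (h0 x))
      (show 0 ≤ z / c0 * κ by positivity) (by constructor <;> norm_num)
    rw [Real.mul_rpow hc0pos.le (h0 x), hc0pow, Real.mul_rpow (by positivity) hκ0] at hy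
    calc z * (ρ x * κ) = c0 * ρ x * (z / c0 * κ) := by field_simp
      _ ≤ _ := hy
      _ = _ := by ring
  have e4 : 2 / 5 * (z / c0) ^ (5 / 2 : ℝ) * (C₂ * L ^ (-(1 / 2) : ℝ)) =
      2 / 5 * (1 / c0) ^ (5 / 2 : ℝ) * C₂ * z ^ (7 / 3 : ℝ) := by
    have a1 : (z / c0) ^ (5 / 2 : ℝ) = z ^ (5 / 2 : ℝ) * (1 / c0) ^ (5 / 2 : ℝ) := by
      rw [← Real.mul_rpow hz.le (by positivity)]
      congr 1
      ring
    have a2 : z ^ (5 / 2 : ℝ) * L ^ (-(1 / 2) : ℝ) = z ^ (7 / 3 : ℝ) := by
      rw [hLdef, ← Real.rpow_mul hz.le, ← Real.rpow_add hz]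
      norm_num
    rw [a1, ← a2]
    ring
  have e5 : z ^ 2 * L = z ^ (7 / 3 : ℝ) := by
    rw [hLdef, show z ^ 2 = z ^ (2 : ℝ) by
      rw [show (2 : ℝ) = ((2 : ℕ) : ℝ) by norm_num, Real.rpow_natCast], ← Real.rpow_add hz]
    norm_num
  rw [e1]
  rw [e5] at hD
  rw [e4] at e3
  have e6 : z * (∫ x, ρ x / ‖x - R‖) =
      z * (∫ x, ρ x * ∫ l in Ioc 0 L, Real.exp (-(l * ‖x - R‖))) +
      z * (∫ x, ρ x * (Real.exp (-(L * ‖x - R‖)) / ‖x - R‖)) := by
    rw [← e2]
    ring
  nlinarith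

end Pool.Agent.H5R2.TF
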