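import Pool.Agent.H5R2.TF_Trial

set_option autoImplicit false

open MeasureTheory Set

namespace Pool.Agent.H5R2.TF

theorem trial_energy (φ : Space → ℝ) (hφ : ContDiff ℝ ((⊤ : ℕ∞) : WithTop ℕ∞) φ)
    (hc : HasCompactSupport φ) (a l z : ℝ) (hl : 0 < l) (R : Space) :
    quantumForm (fun _ : Fin 1 => z) (fun _ : Fin 1 => R) (trial φ a l R) =
      l ^ (-3 : ℤ) * (a ^ 2 * l ^ 2 *
        (∫ x, ∑ c : Fin 3, (fderiv ℝ φ x (EuclideanSpace.single c (1 : ℝ))) ^ 2) -
        a ^ 2 * l * z * ∫ x, φ x ^ 2 / ‖x‖) := by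
  unfold quantumForm
  rw [sum_spin]
  · have h1 : ∀ x : Fin 1 → Space,
        (∑ i : Fin 1, ∑ c : Fin 3, ‖fderiv ℝ (trial φ a l R (fun _ => 0)) x
          (Pi.single i (EuclideanSpace.single c (1 : ℝ)))‖ ^ 2) +
          potentialEnergy (fun _ : Fin 1 => z) (fun _ : Fin 1 => R) x *
            ‖trial φ a l R (fun _ => 0) x‖ ^ 2 =
        (fun y : Space => (fun w : Space => a ^ 2 * l ^ 2 *
          (∑ c : Fin 3, (fderiv ℝ φ w (EuclideanSpace.single c (1 : ℝ))) ^ 2) -
          a ^ 2 * l * z * (φ w ^ 2 / ‖w‖)) (l • (y - R))) (x 0) := by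
      intro x
      simp only [Finset.univ_unique, Finset.sum_singleton, Fin.default_eq_zero]
      simp only [trial_fderiv φ hφ]
      rw [← Finset.mul_sum]
      have h2 : ‖trial φ a l R (fun _ => 0) x‖ ^ 2 = a ^ 2 * φ (l • (x 0 - R)) ^ 2 := by
        simp only [trial, if_true, Complex.norm_real, Real.norm_eq_abs, sq_abs]
        ring
      rw [h2]
      unfold potentialEnergy nuclearPotential nuclearRepulsion
      simp only [Finset.univ_unique, Finset.sum_singleton, lt_self_iff_false, if_false,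
        add_zero, Fin.default_eq_zero]
      rw [norm_smul, Real.norm_of_nonneg hl.le]
      rcases eq_or_ne ‖x 0 - R‖ 0 with h3 | h3
      · simp [h3]
      · field_simp
        ring
    simp_rw [h1]
    rw [one_int (fun y : Space => (fun w : Space => a ^ 2 * l ^ 2 *
          (∑ c : Fin 3, (fderiv ℝ φ w (EuclideanSpace.single c (1 : ℝ))) ^ 2) -
          a ^ 2 * l * z * (φ w ^ 2 / ‖w‖)) (l • (y - R)))]
    rw [scale_int (fun w : Space => a ^ 2 * l ^ 2 *
          (∑ c : Fin 3, (fderiv ℝ φ w (EuclideanSpace.single c (1 : ℝ))) ^ 2) -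
          a ^ 2 * l * z * (φ w ^ 2 / ‖w‖)) l hl R]
    congr 1
    have i1 : Integrable (fun w : Space =>
        ∑ c : Fin 3, (fderiv ℝ φ w (EuclideanSpace.single c (1 : ℝ))) ^ 2) := by
      refine integrable_finsetSum _ fun c _ => ?_
      have hcont : Continuous (fun w : Space => fderiv ℝ φ w (EuclideanSpace.single c (1 : ℝ))) :=
        (hφ.continuous_fderiv (by simp)).clm_apply continuous_const
      have hcs : HasCompactSupport (fderiv ℝ φ) := hc.fderiv (𝕜 := ℝ)
      have hcs' : HasCompactSupport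
          (fun w : Space => fderiv ℝ φ w (EuclideanSpace.single c (1 : ℝ)) ^ 2) := by
        have : (fun w : Space => fderiv ℝ φ w (EuclideanSpace.single c (1 : ℝ)) ^ 2) =
            (fun t : Space →L[ℝ] ℝ => t (EuclideanSpace.single c (1 : ℝ)) ^ 2) ∘
              (fderiv ℝ φ) := rfl
        rw [this]
        exact hcs.comp_left (by simp)
      exact (hcont.pow 2).integrable_of_hasCompactSupport hcs'
    have i2 : Integrable (fun w : Space => φ w ^ 2 / ‖w‖) := by
      have hcs2 : HasCompactSupport (fun x : Space => φ x ^ 2) := by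
        have : (fun x : Space => φ x ^ 2) = (fun t : ℝ => t ^ 2) ∘ φ := rfl
        rw [this]
        exact hc.comp_left (by norm_num)
      have hc3 : HasCompactSupport (fun x : Space => (φ x ^ 2) ^ (5 / 3 : ℝ)) := by
        have : (fun x : Space => (φ x ^ 2) ^ (5 / 3 : ℝ)) =
            (fun t : ℝ => (t ^ 2) ^ (5 / 3 : ℝ)) ∘ φ := rfl
        rw [this]
        exact hc.comp_left (by norm_num)
      have hpi := pot_integrable (ρ := fun x => φ x ^ 2) (fun x => by positivity)
        ((hφ.continuous.pow 2).integrable_of_hasCompactSupport hcs2)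
        (Continuous.integrable_of_hasCompactSupport
          ((hφ.continuous.pow 2).rpow_const fun x => Or.inr (by norm_num)) hc3) 0
      simpa only [sub_zero] using hpi
    rw [integral_sub (i1.const_mul _) (i2.const_mul _), integral_const_mul, integral_const_mul]
  · intro σ hσ
    have h1 : trial φ a l R σ = fun _ => 0 := by
      funext x
      simp [trial, hσ]
    simp [h1]

theorem trial_state (φ : Space → ℝ) (hφ : ContDiff ℝ ((⊤ : ℕ∞) : WithTop ℕ∞) φ)
    (hc : HasCompactSupport φ) (a l : ℝ) (hl : 0 < l) (R : Space)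
    (hn : a ^ 2 * (l ^ (-3 : ℤ) * ∫ x, φ x ^ 2) = 1) : IsState (trial φ a l R) where
  smooth σ := by
    by_cases h : σ 0 = 0
    · have h1 : trial φ a l R σ = fun x => ((a * φ (l • (x 0 - R)) : ℝ) : ℂ) := by
        funext x
        simp [trial, h]
      rw [h1]
      have h2 : ContDiff ℝ ((⊤ : ℕ∞) : WithTop ℕ∞) (fun x : Fin 1 → Space => l • (x 0 - R)) := by
        fun_prop
      exact Complex.ofRealCLM.contDiff.comp (contDiff_const.mul (hφ.comp h2))
    · have h1 : trial φ a l R σ = fun _ => 0 := by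
        funext x
        simp [trial, h]
      rw [h1]
      exact contDiff_const
  compact σ := by
    by_cases h : σ 0 = 0
    · have h1 : trial φ a l R σ = fun x => ((a * φ (l • (x 0 - R)) : ℝ) : ℂ) := by
        funext x
        simp [trial, h]
      rw [h1]
      have e1 : (fun x : Fin 1 → Space => ((a * φ (l • (x 0 - R)) : ℝ) : ℂ)) =
          (fun t : ℝ => ((a * t : ℝ) : ℂ)) ∘ (fun x : Fin 1 → Space => φ (l • (x 0 - R))) := rfl
      rw [e1]
      refine HasCompactSupport.comp_left ?_ (by simp)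
      let e : (Fin 1 → Space) ≃ₜ Space :=
        (Homeomorph.funUnique (Fin 1) Space).trans
          ((Homeomorph.subRight R).trans (Homeomorph.smulOfNeZero l hl.ne'))
      exact hc.comp_homeomorph e
    · have h1 : trial φ a l R σ = fun _ => 0 := by
        funext x
        simp [trial, h]
      rw [h1]
      exact HasCompactSupport.zero
  antisymmetric τ σ x := by
    have : τ = 1 := Subsingleton.elim _ _
    subst this
    simp
  normalized := by
    rw [sum_spin]
    · have h2 : ∀ x : Fin 1 → Space, ‖trial φ a l R (fun _ => 0) x‖ ^ 2 =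
          (fun y : Space => (fun w : Space => a ^ 2 * φ w ^ 2) (l • (y - R))) (x 0) := by
        intro x
        simp only [trial, if_true, Complex.norm_real, Real.norm_eq_abs, sq_abs]
        ring
      simp_rw [h2]
      rw [one_int (fun y : Space => (fun w : Space => a ^ 2 * φ w ^ 2) (l • (y - R))),
        scale_int (fun w : Space => a ^ 2 * φ w ^ 2) l hl R, integral_const_mul]
      rw [← hn]
      ring
    · intro σ hσ
      have h1 : trial φ a l R σ = fun _ => 0 := by
        funext x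
        simp [trial, hσ]
      simp [h1]

/-- upper bound of the quantum energy -/
theorem quantum_upper : ∃ c : ℝ, 0 < c ∧ ∀ (z : ℝ) (R : Space), 0 < z →
    ∃ ψ : Wave 1, IsState ψ ∧
      quantumForm (fun _ : Fin 1 => z) (fun _ : Fin 1 => R) ψ ≤ -c * z ^ 2 := by
  obtain ⟨φ, hφ, hc, hn, hA⟩ := exists_trial
  obtain ⟨n, hnd⟩ : ∃ n, n = ∫ x, φ x ^ 2 := ⟨_, rfl⟩
  obtain ⟨A, hAd⟩ : ∃ A, A = ∫ x, φ x ^ 2 / ‖x‖ := ⟨_, rfl⟩
  obtain ⟨T, hTd⟩ : ∃ T, T = ∫ x, ∑ c : Fin 3,
    (fderiv ℝ φ x (EuclideanSpace.single c (1 : ℝ))) ^ 2 := ⟨_, rfl⟩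
  have hT : 0 ≤ T := by
    rw [hTd]
    exact integral_nonneg fun x => Finset.sum_nonneg fun c _ => sq_nonneg _
  rw [← hnd] at hn
  rw [← hAd] at hA
  refine ⟨A ^ 2 / (4 * (T + 1) * n), by positivity, ?_⟩
  intro z R hz
  obtain ⟨l, hld⟩ : ∃ l, l = z * A / (2 * (T + 1)) := ⟨_, rfl⟩
  have hl : 0 < l := by rw [hld]; positivity
  obtain ⟨a, had⟩ : ∃ a, a = Real.sqrt (l ^ 3 / n) := ⟨_, rfl⟩
  have ha : a ^ 2 = l ^ 3 / n := by
    rw [had, Real.sq_sqrt (by positivity)]
  have hl3 : l ^ (-3 : ℤ) = 1 / l ^ 3 := by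
    rw [zpow_neg]
    norm_cast
    simp
  refine ⟨trial φ a l R, trial_state φ hφ hc a l hl R ?_, ?_⟩
  · rw [← hnd, ha, hl3]
    field_simp
  · rw [trial_energy φ hφ hc a l z hl R, ← hTd, ← hAd, ha, hl3]
    have e1 : 1 / l ^ 3 * (l ^ 3 / n * l ^ 2 * T - l ^ 3 / n * l * z * A) =
        (l ^ 2 * T - l * z * A) / n := by
      field_simp
    rw [e1]
    have e2 : l ^ 2 * T - l * z * A ≤ l ^ 2 * (T + 1) - l * z * A := by nlinarith [sq_nonneg l]
    have e3 : l ^ 2 * (T + 1) - l * z * A = -(z ^ 2 * A ^ 2 / (4 * (T + 1))) := by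
      rw [hld]
      field_simp
      ring
    have e4 : -(A ^ 2 / (4 * (T + 1) * n)) * z ^ 2 = -(z ^ 2 * A ^ 2 / (4 * (T + 1))) / n := by
      field_simp
    rw [e4]
    exact div_le_div_of_nonneg_right (by linarith) hn.le

theorem main : ∃ z₀ : ℝ, 0 < z₀ ∧ ∀ z : ℝ, 0 < z → z < z₀ → ∀ R : Space,
    quantumEnergy 1 (fun _ : Fin 1 => z) (fun _ : Fin 1 => R) <
      thomasFermiEnergy 1 (fun _ : Fin 1 => z) (fun _ : Fin 1 => R) := by
  obtain ⟨c, hc, hq⟩ := quantum_upper
  obtain ⟨C, hC, ht⟩ := tf_lower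
  refine ⟨(c / C) ^ 3, by positivity, ?_⟩
  intro z hz hz0 R
  obtain ⟨ψ, hψ, hψe⟩ := hq z R hz
  have h1 : -c * z ^ 2 < -C * z ^ (7 / 3 : ℝ) := by
    have e1 : z ^ (7 / 3 : ℝ) = z ^ 2 * z ^ (1 / 3 : ℝ) := by
      rw [show z ^ 2 = z ^ (2 : ℝ) by
        rw [show (2 : ℝ) = ((2 : ℕ) : ℝ) by norm_num, Real.rpow_natCast], ← Real.rpow_add hz]
      norm_num
    have e2 : z ^ (1 / 3 : ℝ) < c / C := by
      have h3 : ((c / C) ^ 3 : ℝ) ^ (1 / 3 : ℝ) = c / C := by
        rw [← Real.rpow_natCast, ← Real.rpow_mul (by positivity)]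
        norm_num
      rw [← h3]
      exact Real.rpow_lt_rpow hz.le hz0 (by norm_num)
    have e3 : C * z ^ (1 / 3 : ℝ) < c := by
      rw [lt_div_iff₀ hC] at e2
      linarith
    have e4 : 0 < z ^ 2 := by positivity
    rw [e1]
    nlinarith
  calc quantumEnergy 1 (fun _ : Fin 1 => z) (fun _ : Fin 1 => R)
      ≤ ((quantumForm (fun _ : Fin 1 => z) (fun _ : Fin 1 => R) ψ : ℝ) : EReal) :=
        iInf_le (fun ψ : {ψ : Wave 1 // IsState ψ} =>
          ((quantumForm (fun _ : Fin 1 => z) (fun _ : Fin 1 => R) ψ.1 : ℝ) : EReal)) ⟨ψ, hψ⟩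
    _ ≤ ((-c * z ^ 2 : ℝ) : EReal) := by exact_mod_cast hψe
    _ < ((-C * z ^ (7 / 3 : ℝ) : ℝ) : EReal) := by exact_mod_cast h1
    _ ≤ thomasFermiEnergy 1 (fun _ : Fin 1 => z) (fun _ : Fin 1 => R) := by
        refine le_iInf fun ρ => ?_
        exact_mod_cast ht 1 z R ρ.1 hz ρ.2

end Pool.Agent.H5R2.TF
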