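import Pool.Agent.H5R2.TF_Lower2

set_option autoImplicit false

open MeasureTheory Set

namespace Pool.Agent.H5R2.TF

/-- a fixed bump function -/
theorem exists_trial : ∃ φ : Space → ℝ, ContDiff ℝ ((⊤ : ℕ∞) : WithTop ℕ∞) φ ∧ HasCompactSupport φ ∧
    0 < ∫ x, φ x ^ 2 ∧ 0 < ∫ x, φ x ^ 2 / ‖x‖ := by
  let b : ContDiffBump (0 : Space) := ⟨1, 2, one_pos, one_lt_two⟩
  have hsm : ContDiff ℝ ((⊤ : ℕ∞) : WithTop ℕ∞) (b : Space → ℝ) := b.contDiff
  have hcs : HasCompactSupport (b : Space → ℝ) := b.hasCompactSupport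
  have hcont : Continuous (b : Space → ℝ) := b.continuous
  have hcs2 : HasCompactSupport (fun x : Space => b x ^ 2) := by
    have : (fun x : Space => b x ^ 2) = (fun t : ℝ => t ^ 2) ∘ (b : Space → ℝ) := rfl
    rw [this]
    exact hcs.comp_left (by norm_num)
  have hint2 : Integrable (fun x : Space => b x ^ 2) :=
    (hcont.pow 2).integrable_of_hasCompactSupport hcs2
  have hone : ∀ x ∈ Metric.closedBall (0 : Space) 1, b x = 1 := fun x hx =>
    b.one_of_mem_closedBall hx
  have hvol : 0 < volume.real (Metric.ball (0 : Space) 1) := by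
    rw [Measure.real]
    exact ENNReal.toReal_pos (Metric.measure_ball_pos _ _ one_pos).ne' measure_ball_lt_top.ne
  refine ⟨b, hsm, hcs, ?_, ?_⟩
  · refine lt_of_lt_of_le hvol ?_
    have : volume.real (Metric.ball (0 : Space) 1) =
        ∫ x in Metric.ball (0 : Space) 1, (1 : ℝ) := by simp
    rw [this, ← integral_indicator measurableSet_ball]
    refine integral_mono_of_nonneg (Filter.Eventually.of_forall fun x => ?_) hint2
      (Filter.Eventually.of_forall fun x => ?_)
    · exact indicator_nonneg (fun _ _ => zero_le_one) x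
    · by_cases hx : x ∈ Metric.ball (0 : Space) 1
      · rw [indicator_of_mem hx]
        simp [hone x (Metric.ball_subset_closedBall hx)]
      · rw [indicator_of_notMem hx]
        positivity
  · have hpi : Integrable (fun x : Space => b x ^ 2 / ‖x - 0‖) := by
      have hc3 : HasCompactSupport (fun x : Space => (b x ^ 2) ^ (5 / 3 : ℝ)) := by
        have : (fun x : Space => (b x ^ 2) ^ (5 / 3 : ℝ)) =
            (fun t : ℝ => (t ^ 2) ^ (5 / 3 : ℝ)) ∘ (b : Space → ℝ) := rfl
        rw [this]
        exact hcs.comp_left (by norm_num)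
      refine pot_integrable (fun x => by positivity) hint2 ?_ 0
      refine Continuous.integrable_of_hasCompactSupport ?_ hc3
      exact (hcont.pow 2).rpow_const fun x => Or.inr (by norm_num)
    simp only [sub_zero] at hpi
    refine lt_of_lt_of_le hvol ?_
    have : volume.real (Metric.ball (0 : Space) 1) =
        ∫ x in Metric.ball (0 : Space) 1, (1 : ℝ) := by simp
    rw [this, ← integral_indicator measurableSet_ball]
    refine integral_mono_of_nonneg (Filter.Eventually.of_forall fun x => ?_) hpi ?_
    · exact indicator_nonneg (fun _ _ => zero_le_one) x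
    · have hne : ∀ᵐ x : Space, x ≠ 0 := by
        have : (volume : Measure Space) {0} = 0 := measure_singleton 0
        exact (measure_eq_zero_iff_ae_notMem.mp this)
      filter_upwards [hne] with x hx0
      by_cases hx : x ∈ Metric.ball (0 : Space) 1
      · rw [indicator_of_mem hx]
        simp only [hone x (Metric.ball_subset_closedBall hx)]
        have h1 : ‖x‖ < 1 := by simpa using hx
        have h2 : 0 < ‖x‖ := norm_pos_iff.mpr hx0
        rw [one_pow, le_div_iff₀ h2]
        linarith
      · rw [indicator_of_notMem hx]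
        positivity

/-- the trial state with one electron -/
noncomputable def trial (φ : Space → ℝ) (a l : ℝ) (R : Space) : Wave 1 :=
  fun σ x => if σ 0 = 0 then ((a * φ (l • (x 0 - R)) : ℝ) : ℂ) else 0

theorem dim_space' : Module.finrank ℝ Space = 3 := by
  simp [Space]

/-- change of variables -/
theorem scale_int (f : Space → ℝ) (l : ℝ) (hl : 0 < l) (R : Space) :
    ∫ x : Space, f (l • (x - R)) = l ^ (-3 : ℤ) * ∫ x, f x := by
  rw [integral_sub_right_eq_self (fun x : Space => f (l • x)) R]
  rw [Measure.integral_comp_smul volume f l, dim_space', abs_of_pos (by positivity), smul_eq_mul]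
  congr 1

/-- integrals over one-electron configurations -/
theorem one_int (f : Space → ℝ) : ∫ x : Fin 1 → Space, f (x 0) = ∫ y, f y := by
  have h := (volume_preserving_funUnique (Fin 1) Space)
  have := h.integral_comp (MeasurableEquiv.funUnique (Fin 1) Space).measurableEmbedding f
  rw [← this]
  rfl

/-- sums over the spin of one electron -/
theorem sum_spin (F : (Fin 1 → Fin 2) → ℝ) (h : ∀ σ, σ 0 ≠ 0 → F σ = 0) :
    ∑ σ, F σ = F (fun _ => 0) := by
  refine Finset.sum_eq_single (fun _ => 0) (fun σ _ hσ => h σ fun h0 => hσ ?_)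
    (fun h => absurd (Finset.mem_univ _) h)
  funext i
  have : i = 0 := Subsingleton.elim _ _
  rw [this, h0]

theorem trial_fderiv (φ : Space → ℝ) (hφ : ContDiff ℝ ((⊤ : ℕ∞) : WithTop ℕ∞) φ) (a l : ℝ)
    (R : Space) (x : Fin 1 → Space) (v : Space) :
    ‖fderiv ℝ (trial φ a l R (fun _ => 0)) x (Pi.single 0 v)‖ ^ 2 =
      a ^ 2 * l ^ 2 * (fderiv ℝ φ (l • (x 0 - R)) v) ^ 2 := by
  have h1 : HasFDerivAt φ (fderiv ℝ φ (l • (x 0 - R))) (l • (x 0 - R)) :=
    ((hφ.differentiable (by simp)).differentiableAt).hasFDerivAt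
  have h2 : HasFDerivAt (fun y : Fin 1 → Space => l • (y 0 - R))
      (l • (ContinuousLinearMap.proj (R := ℝ) (φ := fun _ : Fin 1 => Space) 0)) x := by
    have h3 : HasFDerivAt (fun y : Fin 1 → Space => y 0)
        (ContinuousLinearMap.proj (R := ℝ) (φ := fun _ : Fin 1 => Space) 0) x :=
      hasFDerivAt_apply 0 x
    exact (h3.sub_const R).const_smul l
  have h4 := (h1.comp x h2).const_mul a
  have h5 : HasFDerivAt (fun y : Fin 1 → Space => ((a * φ (l • (y 0 - R)) : ℝ) : ℂ))
      (Complex.ofRealCLM.comp (a • (fderiv ℝ φ (l • (x 0 - R))).comp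
        (l • (ContinuousLinearMap.proj (R := ℝ) (φ := fun _ : Fin 1 => Space) 0)))) x :=
    Complex.ofRealCLM.hasFDerivAt.comp x h4
  have h6 : trial φ a l R (fun _ => 0) =
      fun y : Fin 1 → Space => ((a * φ (l • (y 0 - R)) : ℝ) : ℂ) := by
    funext y
    simp [trial]
  rw [h6, h5.fderiv]
  simp only [ContinuousLinearMap.comp_apply, ContinuousLinearMap.smul_apply,
    ContinuousLinearMap.proj_apply, Pi.single_eq_same, Complex.ofRealCLM_apply, map_smul,
    smul_eq_mul, Complex.norm_real, Real.norm_eq_abs, sq_abs]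
  ring

end Pool.Agent.H5R2.TF
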